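import Pool.Agent.helper60.MW.SpecB

set_option autoImplicit false

namespace Pool.Agent.MW

open MeasureTheory Set Pool.Agent.helper17.Worm

theorem CLS_refl (c : ℕ → ℤ × ℤ) : Rel c c :=
  ⟨0, Filter.Eventually.of_forall fun n => by simp⟩

theorem CLS_symm {c d : ℕ → ℤ × ℤ} (h : Rel c d) : Rel d c := by
  obtain ⟨v, hv⟩ := h
  refine ⟨-v, hv.mono fun n hn => ?_⟩
  rw [hn]
  abel

theorem CLS_trans {c d e : ℕ → ℤ × ℤ} (h : Rel c d) (h' : Rel d e) : Rel c e := by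
  obtain ⟨v, hv⟩ := h
  obtain ⟨w, hw⟩ := h'
  refine ⟨v + w, ?_⟩
  filter_upwards [hv, hw] with n hn hn'
  rw [hn', hn]
  abel

theorem CLS : CLS_stmt := by
  let s : Setoid (ℕ → ℤ × ℤ) := ⟨Rel, CLS_refl, CLS_symm, CLS_trans⟩
  refine ⟨Quotient s, fun q => q.out, ?_, ?_⟩
  · intro i i' hne hrel
    apply hne
    have h : (⟦i.out⟧ : Quotient s) = ⟦i'.out⟧ := Quotient.sound hrel
    rwa [Quotient.out_eq, Quotient.out_eq] at h
  · intro d
    exact ⟨⟦d⟧, Quotient.exact (Quotient.out_eq (⟦d⟧ : Quotient s))⟩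

end Pool.Agent.MW
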