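import Pool.Agent.helper60.MW.SpecB

set_option autoImplicit false

namespace Pool.Agent.MW

open MeasureTheory Set Pool.Agent.helper17.Worm

theorem MSS_nonneg (X : ℕ → Set ℂ) (V : ℕ → ℝ) (M : ℝ) (hV0 : ∀ n, 0 ≤ V n)
    (hV : ∀ n, volume (X n) ≤ ENNReal.ofReal (V n))
    (hVM : Filter.Tendsto V (ul : Filter ℕ) (nhds M)) (c : ℕ → ℤ × ℤ) (x y : ℤ) :
    0 ≤ Dl X c 0 x y := by
  set h : ℕ → ℝ := fun n => den (X n) 0 (x + 2 ^ 0 * (c n).1) (y + 2 ^ 0 * (c n).2) with hh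
  have hle : ∀ n, h n ∈ Icc 0 (V n) := by
    intro n
    have hfin : volume (X n) ≠ ⊤ := ne_top_of_le_ne_top ENNReal.ofReal_ne_top (hV n)
    have h1 : volume.real (X n ∩ lsq 0 (x + 2 ^ 0 * (c n).1) (y + 2 ^ 0 * (c n).2)) ≤ V n := by
      have h2 : volume (X n ∩ lsq 0 (x + 2 ^ 0 * (c n).1) (y + 2 ^ 0 * (c n).2)) ≤ ENNReal.ofReal (V n) :=
        (measure_mono inter_subset_left).trans (hV n)
      calc volume.real (X n ∩ lsq 0 (x + 2 ^ 0 * (c n).1) (y + 2 ^ 0 * (c n).2))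
          ≤ (ENNReal.ofReal (V n)).toReal := ENNReal.toReal_mono ENNReal.ofReal_ne_top h2
        _ = V n := ENNReal.toReal_ofReal (hV0 n)
    constructor
    · simp only [hh, den]
      positivity
    · simp only [hh, den, pow_zero, mul_one]
      simp only [pow_zero] at h1
      exact h1
  have hev : ∀ᶠ n in (ul : Filter ℕ), h n ∈ Icc 0 (M + 1) := by
    have : ∀ᶠ n in (ul : Filter ℕ), V n < M + 1 :=
      hVM.eventually (gt_mem_nhds (by linarith))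
    filter_upwards [this] with n hn
    exact ⟨(hle n).1, (hle n).2.trans hn.le⟩
  have hmap : ((ul.map h : Ultrafilter ℝ) : Filter ℝ) ≤ Filter.principal (Icc 0 (M + 1)) := by
    rw [Filter.le_principal_iff]
    exact hev
  obtain ⟨z, hz, hlim⟩ := isCompact_Icc.ultrafilter_le_nhds (ul.map h) hmap
  have htend : Filter.Tendsto h (ul : Filter ℕ) (nhds z) := hlim
  have : Dl X c 0 x y = z := htend.limUnder_eq
  rw [this]
  exact hz.1

theorem MSS (hMS1 : MS1_stmt) : MSS_stmt := by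
  intro X V M hX hV0 hV hVM ι c hc
  have hnn : ∀ i x y, 0 ≤ Dl X (c i) 0 x y := fun i x y => MSS_nonneg X V M hV0 hV hVM (c i) x y
  rw [ENNReal.tsum_eq_iSup_sum]
  refine iSup_le fun F => ?_
  have hswap : ∑ i ∈ F, mass (Dl X (c i)) 0 =
      ∑' s : ℤ × ℤ, ∑ i ∈ F, ENNReal.ofReal (Dl X (c i) 0 s.1 s.2 / 4 ^ 0) := by
    unfold mass
    rw [Summable.tsum_finsetSum (fun i _ => ENNReal.summable)]
  rw [hswap, ENNReal.tsum_eq_iSup_sum]
  refine iSup_le fun S => ?_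
  -- a box containing S
  obtain ⟨R, hR⟩ : ∃ R : ℕ, ∀ s ∈ S, -(R : ℤ) ≤ s.1 ∧ s.1 < R ∧ -(R : ℤ) ≤ s.2 ∧ s.2 < R := by
    refine ⟨(∑ s ∈ S, (s.1.natAbs + s.2.natAbs)) + 1, ?_⟩
    intro s hs
    have h1 : s.1.natAbs + s.2.natAbs ≤ ∑ s ∈ S, (s.1.natAbs + s.2.natAbs) :=
      Finset.single_le_sum (f := fun s : ℤ × ℤ => s.1.natAbs + s.2.natAbs) (fun _ _ => Nat.zero_le _) hs
    omega
  have hsub : S ⊆ (Finset.Ico (-(R : ℤ)) R) ×ˢ (Finset.Ico (-(R : ℤ)) R) := by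
    intro s hs
    obtain ⟨h1, h2, h3, h4⟩ := hR s hs
    simp only [Finset.mem_product, Finset.mem_Ico]
    exact ⟨⟨h1, h2⟩, ⟨h3, h4⟩⟩
  calc ∑ s ∈ S, ∑ i ∈ F, ENNReal.ofReal (Dl X (c i) 0 s.1 s.2 / 4 ^ 0)
      ≤ ∑ s ∈ (Finset.Ico (-(R : ℤ)) R) ×ˢ (Finset.Ico (-(R : ℤ)) R),
          ∑ i ∈ F, ENNReal.ofReal (Dl X (c i) 0 s.1 s.2 / 4 ^ 0) :=
        Finset.sum_le_sum_of_subset hsub
    _ = ∑ i ∈ F, ∑ s ∈ (Finset.Ico (-(R : ℤ)) R) ×ˢ (Finset.Ico (-(R : ℤ)) R),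
          ENNReal.ofReal (Dl X (c i) 0 s.1 s.2) := by
        rw [Finset.sum_comm]
        simp
    _ = ∑ i ∈ F, ∑ x ∈ Finset.Ico (-(R : ℤ)) R, ∑ y ∈ Finset.Ico (-(R : ℤ)) R,
          ENNReal.ofReal (Dl X (c i) 0 x y) := by
        refine Finset.sum_congr rfl fun i _ => ?_
        rw [Finset.sum_product]
    _ = ENNReal.ofReal (∑ i ∈ F, ∑ x ∈ Finset.Ico (-(R : ℤ)) R, ∑ y ∈ Finset.Ico (-(R : ℤ)) R,
          Dl X (c i) 0 x y) := by
        rw [ENNReal.ofReal_sum_of_nonneg fun i _ =>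
          Finset.sum_nonneg fun x _ => Finset.sum_nonneg fun y _ => hnn i x y]
        refine Finset.sum_congr rfl fun i _ => ?_
        rw [ENNReal.ofReal_sum_of_nonneg fun x _ => Finset.sum_nonneg fun y _ => hnn i x y]
        refine Finset.sum_congr rfl fun x _ => ?_
        rw [ENNReal.ofReal_sum_of_nonneg fun y _ => hnn i x y]
    _ ≤ ENNReal.ofReal M := ENNReal.ofReal_le_ofReal (hMS1 X V M hX hV0 hV hVM ι c hc F R)

end Pool.Agent.MW
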