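import Pool.Agent.helper60.MW.Spec

set_option autoImplicit false

namespace Pool.Agent.MW

open MeasureTheory Set Pool.Agent.helper17.Worm

theorem NUM : NUM_stmt := by
  intro m n b s h hn hb hb2 hs hh hsh hE
  have hh8 : h ≤ 1 / 8 := by linarith
  have hs2 : 0 < s + 2 * h := by linarith
  have hhb : 0 < h * b := mul_pos hh hb
  have hhb16 : h * b ≤ 1 / 16 := by nlinarith
  set r : ℝ := (s + h) / (s + 2 * h) with hr
  have hr0 : 1 / 2 ≤ r := by
    rw [hr, div_le_div_iff₀ (by norm_num) hs2]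
    linarith
  have hrpos : 0 < r := by linarith
  have hr1 : r ≤ Real.exp (-h) := by
    have h1 : r ≤ 1 - h := by
      rw [hr, div_le_iff₀ hs2]
      nlinarith
    exact h1.trans (Real.one_sub_le_exp_neg h)
  set E : ℝ := Real.exp (-(h * n)) with hEdef
  have hEpos : 0 < E := Real.exp_pos _
  have hrn : r ^ n ≤ E := by
    have h1 : r ^ n ≤ (Real.exp (-h)) ^ n := pow_le_pow_left₀ hrpos.le hr1 n
    rw [← Real.exp_nat_mul] at h1
    have e : (n : ℝ) * -h = -(h * n) := by ring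
    rwa [e] at h1
  have hrn1 : r ^ (n - 1) ≤ 2 * E := by
    have h1 : r ^ n = r ^ (n - 1) * r := by
      rw [← pow_succ]
      congr 1
      omega
    have h2 : r ^ (n - 1) * (1 / 2) ≤ r ^ (n - 1) * r :=
      mul_le_mul_of_nonneg_left hr0 (by positivity)
    linarith
  have hinv : 1 / (s + 2 * h) ≤ 2 := by
    rw [div_le_iff₀ hs2]
    linarith
  have hpi1 : Real.pi < 3.1416 := Real.pi_lt_d4
  have hpi2 : 3.14 < Real.pi := Real.pi_gt_d2
  have hA : 2 * Real.pi + h * b / 4 / 8 - -(h * b / 4 / 8) ≤ 6.29 := by linarith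
  have hB : r ^ (n - 1) * (1 / (s + 2 * h)) * m ≤ 4 * (m * E) := by
    have hm : (0 : ℝ) ≤ m := Nat.cast_nonneg m
    calc r ^ (n - 1) * (1 / (s + 2 * h)) * m ≤ (2 * E) * 2 * m := by
          apply mul_le_mul_of_nonneg_right _ hm
          exact mul_le_mul hrn1 hinv (by positivity) (by positivity)
      _ = 4 * (m * E) := by ring
  have hB0 : 0 ≤ r ^ (n - 1) * (1 / (s + 2 * h)) * m := by positivity
  have hmE : m * E ≤ (h * b) ^ 3 / 10 ^ 4 := by
    rw [le_div_iff₀ (by norm_num)]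
    linarith
  have h3 : 0 < (h * b) ^ 3 := by positivity
  calc (2 * Real.pi + h * b / 4 / 8 - -(h * b / 4 / 8)) * (r ^ (n - 1) * (1 / (s + 2 * h)) * m)
      ≤ 6.29 * (4 * (m * E)) := mul_le_mul hA hB hB0 (by norm_num)
    _ ≤ 6.29 * (4 * ((h * b) ^ 3 / 10 ^ 4)) := by linarith
    _ < 3.14 * (h * b / 4) ^ 3 / 16 := by
        have e : (h * b / 4) ^ 3 = (h * b) ^ 3 / 64 := by ring
        rw [e]
        linarith
    _ < Real.pi * (h * b / 4) ^ 3 / 16 := by
        have : 0 < (h * b / 4) ^ 3 := by positivity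
        have h5 : 3.14 * (h * b / 4) ^ 3 < Real.pi * (h * b / 4) ^ 3 := mul_lt_mul_of_pos_right hpi2 this
        linarith

end Pool.Agent.MW
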