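import Pool.Agent.helper60.MW.SpecB

set_option autoImplicit false

namespace Pool.Agent.MW

open MeasureTheory Set Pool.Agent.helper17.Worm

theorem NZM (hMSC : MSC_stmt) : NZM_stmt := by
  intro D hD L K κ W z hK hκ hz h0
  obtain ⟨S, hS, hs⟩ := hz
  have hne : S.Nonempty := by
    rw [← Finset.card_pos]
    omega
  obtain ⟨s, hsS⟩ := hne
  have h1 : 1 - 2 * κ ≤ D L s.1 s.2 := (hs s hsS).1
  have hL : mass D L = 0 := by rw [hMSC D hD L, h0]
  unfold mass at hL
  rw [ENNReal.tsum_eq_zero] at hL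
  have h2 : D L s.1 s.2 / 4 ^ L ≤ 0 := ENNReal.ofReal_eq_zero.mp (hL s)
  have h3 : 0 < D L s.1 s.2 / 4 ^ L := by
    apply div_pos _ (by positivity)
    linarith
  linarith

end Pool.Agent.MW
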