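import Pool.Agent.helper60.MW.SpecB

set_option autoImplicit false

namespace Pool.Agent.MW

open MeasureTheory Set Pool.Agent.helper17.Worm

theorem SEP (hFIN : FIN_stmt) : SEP_stmt := by
  intro c c' hrel R
  by_contra hcon
  apply hrel
  have h : ∀ᶠ n in (ul : Filter ℕ), ¬ (R < |(c n).1 - (c' n).1| ∨ R < |(c n).2 - (c' n).2|) :=
    Ultrafilter.eventually_not.mpr hcon
  obtain ⟨v, hv⟩ := hFIN (fun n => c' n - c n) R (h.mono fun n hn => by
    push Not at hn
    obtain ⟨h1, h2⟩ := hn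
    rw [abs_sub_comm] at h1 h2
    exact ⟨by simpa using h1, by simpa using h2⟩)
  refine ⟨v, hv.mono fun n hn => ?_⟩
  have hn' : c' n - c n = v := hn
  rw [← hn']
  abel

end Pool.Agent.MW
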