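import Pool.Agent.helper60.MW.SpecB

set_option autoImplicit false

namespace Pool.Agent.MW

open MeasureTheory Set Pool.Agent.helper17.Worm

theorem FIN : FIN_stmt := by
  intro d R h
  have hfin : (Icc (-R) R ×ˢ Icc (-R) R : Set (ℤ × ℤ)).Finite :=
    (Set.finite_Icc (-R) R).prod (Set.finite_Icc (-R) R)
  have hmem : (⋃ v ∈ (Icc (-R) R ×ˢ Icc (-R) R : Set (ℤ × ℤ)), {n | d n = v}) ∈ ul := by
    refine Filter.mem_of_superset h ?_
    intro n hn
    obtain ⟨h1, h2⟩ := hn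
    simp only [mem_iUnion]
    exact ⟨d n, ⟨abs_le.mp h1, abs_le.mp h2⟩, rfl⟩
  rw [Ultrafilter.finite_biUnion_mem_iff hfin] at hmem
  obtain ⟨v, -, hv⟩ := hmem
  exact ⟨v, hv⟩

end Pool.Agent.MW
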